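import Pool.Agent.E8helper48.RR.Stm2

/-! Piece ENE of project RR (MP_548f00_an): an energy. -/

set_option autoImplicit false

namespace Pool.Agent.E8helper44.RR

open Filter Topology

noncomputable section

/-- the one-variable part of the energy -/
def en (al A t : ℝ) : ℝ := t ^ 2 / 2 - (1 - A) * t - al * Real.log t

/-- the constant in front of the square -/
def th (A : ℝ) : ℝ := (1 + A) / (4 * (1 - A))

lemma th_eq {A : ℝ} (hA1 : A < 1) : 2 * th A = (1 - A)⁻¹ - 1 / 2 := by
  have h : (1 - A) ≠ 0 := by linarith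
  unfold th
  field_simp
  ring

lemma step_ineq {al A B D v u w y : ℝ} (hal : 0 < al) (hA : 0 ≤ A) (hA1 : A < 1) (hD : 0 < D)
    (hDD : 2 * D * (1 - A) ≤ 1 + A) (hu : 0 < u) (hy : 0 < y) (hy1 : y ≤ 1 - A)
    (he : y * (A + B * w + u + D * v) = al + u) :
    (en al A y + en al A w + (B + D) * y * w + th A * (y - u) ^ 2) -
      (en al A w + en al A u + (B + D) * w * u + th A * (w - v) ^ 2) ≤
      -(al * (√(u / y) - 1) ^ 2) := by
  set t := u / y with ht
  have ht0 : 0 < t := div_pos hu hy
  set r := y⁻¹ with hr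
  have hry : r * y = 1 := inv_mul_cancel₀ hy.ne'
  have hru : r * u = t := by rw [ht, hr]; ring
  have hlog : Real.log t = Real.log u - Real.log y := Real.log_div hu.ne' hy.ne'
  have h1 : B * w + D * v = al * r + t - A - u := by
    have : r * (y * (A + B * w + u + D * v)) = r * (al + u) := by rw [he]
    have h2 : r * (y * (A + B * w + u + D * v)) = (A + B * w + u + D * v) := by
      rw [← mul_assoc, hry, one_mul]
    rw [h2] at this
    linear_combination this + hru
  have hlt : Real.log t ≤ 2 * (√t - 1) := by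
    have h3 := Real.log_le_sub_one_of_pos (Real.sqrt_pos.2 ht0)
    rw [Real.log_sqrt ht0.le] at h3
    linarith
  have hsq : √t ^ 2 = t := Real.sq_sqrt ht0.le
  have key : (en al A y + en al A w + (B + D) * y * w + th A * (y - u) ^ 2) -
      (en al A w + en al A u + (B + D) * w * u + th A * (w - v) ^ 2) =
      -(r - 1 / 2) * (y - u) ^ 2 - al * (t - 1 - Real.log t) + D * (w - v) * (y - u) +
        th A * (y - u) ^ 2 - th A * (w - v) ^ 2 := by
    unfold en
    rw [hlog]
    linear_combination (y - u) * h1 + (y - u) * (hry - hru) * (y - u) * 0 +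
      ((y - u) * (hry - hru)) + al * (hry - hru)
  have hrth : 2 * th A ≤ r - 1 / 2 := by
    rw [th_eq hA1]
    have : (1 - A)⁻¹ ≤ r := inv_anti₀ hy hy1
    linarith
  have hDth : D ≤ 2 * th A := by
    have h : 0 < 1 - A := by linarith
    unfold th
    rw [show 2 * ((1 + A) / (4 * (1 - A))) = (1 + A) / (2 * (1 - A)) by field_simp; ring,
      le_div_iff₀ (by linarith)]
    linarith
  have hth0 : 0 < th A := by linarith
  have q1 : 2 * th A * (y - u) ^ 2 ≤ (r - 1 / 2) * (y - u) ^ 2 :=
    mul_le_mul_of_nonneg_right hrth (sq_nonneg _)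
  have q2 : D * (w - v) * (y - u) ≤ th A * (y - u) ^ 2 + th A * (w - v) ^ 2 := by
    have h5 : (w - v) * (y - u) ≤ ((y - u) ^ 2 + (w - v) ^ 2) / 2 := by
      nlinarith [sq_nonneg ((w - v) - (y - u))]
    have h6 : D * ((w - v) * (y - u)) ≤ D * (((y - u) ^ 2 + (w - v) ^ 2) / 2) :=
      mul_le_mul_of_nonneg_left h5 hD.le
    have h7 : D * (((y - u) ^ 2 + (w - v) ^ 2) / 2) ≤
        2 * th A * (((y - u) ^ 2 + (w - v) ^ 2) / 2) :=
      mul_le_mul_of_nonneg_right hDth (by positivity)
    nlinarith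
  have q3 : al * (√t - 1) ^ 2 ≤ al * (t - 1 - Real.log t) := by
    refine mul_le_mul_of_nonneg_left ?_ hal.le
    nlinarith
  rw [key]
  linarith

/-- piece ENE -/
theorem t_ENE : RR48.S_ENE := by
  intro al A B D L x hal hA hA1 hB hD hDD hL hx hsol
  set V : ℕ → ℝ := fun n => en al A (x (n + 2)) + en al A (x (n + 1)) +
    (B + D) * x (n + 2) * x (n + 1) + th A * (x (n + 2) - x n) ^ 2 with hV
  have hpos : ∀ n, 0 < x n := fun n => hL.trans_le (hx n).1
  have h1A : 0 < 1 - A := by linarith
  have hth0 : 0 < th A := by unfold th; positivity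
  have hstep : ∀ n, V (n + 1) - V n ≤ -(al * (√(x (n + 1) / x (n + 3)) - 1) ^ 2) := by
    intro n
    have hq : x (n + 3) * (A + B * x (n + 2) + x (n + 1) + D * x n) = al + x (n + 1) := by
      rw [hsol.step n]
      exact div_mul_cancel₀ _ (hsol.den n).ne'
    have := step_ineq (v := x n) (u := x (n + 1)) (w := x (n + 2)) (y := x (n + 3)) (B := B)
      hal hA hA1 hD hDD (hpos _) (hpos _) (hx _).2 hq
    exact this
  have hanti : Antitone V := antitone_nat_of_succ_le fun n => by
    have h := hstep n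
    have : 0 ≤ al * (√(x (n + 1) / x (n + 3)) - 1) ^ 2 := by positivity
    linarith
  have hen : ∀ n, -1 ≤ en al A (x n) := by
    intro n
    have h0 := hpos n
    have h1 := (hx n).2
    have hl : Real.log (x n) ≤ 0 := Real.log_nonpos h0.le (by linarith)
    unfold en
    have : 0 ≤ -(al * Real.log (x n)) := by
      have := mul_nonneg hal.le (neg_nonneg.2 hl)
      linarith
    have h2 : (1 - A) * x n ≤ 1 := by nlinarith
    nlinarith [sq_nonneg (x n)]
  have hbdd : BddBelow (Set.range V) := by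
    refine ⟨-2, ?_⟩
    rintro _ ⟨n, rfl⟩
    have h1 := hen (n + 2)
    have h2 := hen (n + 1)
    have h3 : 0 ≤ (B + D) * x (n + 2) * x (n + 1) := by
      have := (hpos (n + 2)).le
      have := (hpos (n + 1)).le
      positivity
    have h4 : 0 ≤ th A * (x (n + 2) - x n) ^ 2 := by positivity
    simp only [hV]
    linarith
  have hlim := tendsto_atTop_ciInf hanti hbdd
  have hdiff : Tendsto (fun n => V n - V (n + 1)) atTop (𝓝 0) := by
    have := hlim.sub (hlim.comp (tendsto_add_atTop_nat 1))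
    simpa using this
  -- the square of the difference
  set C : ℝ := (√(1 / L) + 1) ^ 2 / al with hC
  have hsq : ∀ n, (x (n + 3) - x (n + 1)) ^ 2 ≤ C * (V n - V (n + 1)) := by
    intro n
    have h := hstep n
    set t := x (n + 1) / x (n + 3) with ht
    have ht0 : 0 < t := div_pos (hpos _) (hpos _)
    have htL : t ≤ 1 / L := by
      rw [ht]
      have h1 : x (n + 1) ≤ 1 := by have := (hx (n + 1)).2; linarith
      have h2 := (hx (n + 3)).1
      exact div_le_div₀ zero_le_one h1 hL h2
    have hxt : x (n + 1) = t * x (n + 3) := by rw [ht]; field_simp [(hpos (n + 3)).ne']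
    have hs2 : √t ^ 2 = t := Real.sq_sqrt ht0.le
    have hs0 := Real.sqrt_nonneg t
    have hsL : √t ≤ √(1 / L) := Real.sqrt_le_sqrt htL
    have e1 : (x (n + 3) - x (n + 1)) ^ 2 = x (n + 3) ^ 2 * ((√t - 1) ^ 2 * (√t + 1) ^ 2) := by
      rw [hxt]
      have : (√t - 1) * (√t + 1) = t - 1 := by nlinarith
      rw [← mul_pow, this]
      ring
    have e2 : x (n + 3) ^ 2 ≤ 1 := by
      have h1 := (hx (n + 3)).2
      have h2 := (hpos (n + 3)).le
      nlinarith
    have e3 : (√t + 1) ^ 2 ≤ (√(1 / L) + 1) ^ 2 := pow_le_pow_left₀ (by positivity) (by linarith) 2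
    have e4 : al * (√t - 1) ^ 2 ≤ V n - V (n + 1) := by linarith
    calc (x (n + 3) - x (n + 1)) ^ 2 = x (n + 3) ^ 2 * ((√t - 1) ^ 2 * (√t + 1) ^ 2) := e1
      _ ≤ 1 * ((√t - 1) ^ 2 * (√(1 / L) + 1) ^ 2) :=
          mul_le_mul e2 (mul_le_mul_of_nonneg_left e3 (sq_nonneg _)) (by positivity) zero_le_one
      _ = C * (al * (√t - 1) ^ 2) := by rw [hC]; field_simp
      _ ≤ C * (V n - V (n + 1)) := mul_le_mul_of_nonneg_left e4 (by positivity)
  have hsq0 : Tendsto (fun n => (x (n + 3) - x (n + 1)) ^ 2) atTop (𝓝 0) := by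
    refine squeeze_zero (fun n => sq_nonneg _) hsq ?_
    simpa using hdiff.const_mul C
  have habs : Tendsto (fun n => x (n + 3) - x (n + 1)) atTop (𝓝 0) := by
    have h := (Real.continuous_sqrt.tendsto 0).comp hsq0
    rw [Real.sqrt_zero] at h
    refine (tendsto_zero_iff_abs_tendsto_zero _).2 (h.congr fun n => ?_)
    simp only [Function.comp]
    rw [Real.sqrt_sq_eq_abs]
  have h3 : Tendsto (fun n => x (n + 1 + 2) - x (n + 1)) atTop (𝓝 0) := habs
  exact (tendsto_add_atTop_iff_nat (f := fun n => x (n + 2) - x n) 1).1 h3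

end

end Pool.Agent.E8helper44.RR
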